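import Pool.Agent.TH629.RidM
import Pool.Agent.Helper93.ZP.Core

/-!
# Rational numbers with smooth denominators near real numbers

By Ridout's theorem there are only finitely many good rational approximations with smooth
denominators to an algebraic irrational number; and the real numbers with infinitely many such
approximations form a set of small dimension.
-/

set_option autoImplicit false

namespace Pool.Agent.Helper93.RA

open Filter Topology MeasureTheory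

/-- the rational numbers whose denominators have no prime factor larger than `D` -/
def Smooth (D : ℕ) : Set ℚ := {t | ∀ p : ℕ, p.Prime → p ∣ t.den → p ≤ D}

/-- finitely many fractions -/
lemma finite_box (Q B : ℝ) : {t : ℚ | (t.den : ℝ) ≤ Q ∧ |(t : ℝ)| ≤ B}.Finite := by
  set g : ℚ → ℤ × ℕ := fun t => (t.num, t.den) with hg
  have hinj : Function.Injective g := by
    intro s t h
    rw [hg, Prod.mk.injEq] at h
    exact Rat.ext h.1 h.2
  obtain ⟨Q', hQ'⟩ := exists_nat_ge Q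
  obtain ⟨M, hM⟩ := exists_nat_ge (B * Q)
  refine Set.Finite.of_finite_image (((Set.finite_Icc (-(M : ℤ)) M).prod
    (Set.finite_Iic Q')).subset ?_) hinj.injOn
  rintro _ ⟨t, ⟨h1, h2⟩, rfl⟩
  have hd0 : (0 : ℝ) < t.den := by exact_mod_cast t.den_pos
  have h3 : |(t.num : ℝ)| ≤ M := by
    have e1 : (t.num : ℝ) = (t : ℝ) * t.den := by
      rw [Rat.cast_def]
      field_simp
    rw [e1, abs_mul, abs_of_pos hd0]
    have hB : 0 ≤ B := (abs_nonneg _).trans h2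
    exact (mul_le_mul h2 h1 hd0.le hB).trans hM
  rw [Set.mem_prod, Set.mem_Icc, Set.mem_Iic]
  refine ⟨?_, ?_⟩
  · rw [abs_le] at h3
    exact ⟨by exact_mod_cast h3.1, by exact_mod_cast h3.2⟩
  · exact_mod_cast h1.trans hQ'

/-- Ridout's theorem -/
theorem ridout_fin (D : ℕ) {α : ℝ} (hα : IsAlgebraic ℚ α) (hirr : Irrational α) {τ A : ℝ}
    (hτ : 1 < τ) (hA : 0 < A) :
    {t : ℚ | t ∈ Smooth D ∧ |α - t| ≤ A * (t.den : ℝ) ^ (-τ)}.Finite := by
  classical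
  obtain ⟨c, hc, hR⟩ := Pool.Agent.TH629.RidM.ridout_meas α hα hirr
    ((Finset.range (D + 1)).filter Nat.Prime) (fun ℓ hℓ => (Finset.mem_filter.1 hℓ).2)
    ((τ - 1) / 2) (by linarith)
  refine (finite_box ((A / c) ^ ((τ - 1) / 2)⁻¹) (|α| + A)).subset ?_
  rintro t ⟨h1, h2⟩
  have hd : 1 ≤ t.den := t.den_pos
  have hdr : (1 : ℝ) ≤ t.den := by exact_mod_cast hd
  have hd0 : (0 : ℝ) < t.den := by linarith
  have h3 := hR t.den hd t.den dvd_rfl (fun ℓ hℓ hℓd => by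
    rw [Finset.mem_filter, Finset.mem_range]
    exact ⟨Nat.lt_succ_of_le (h1 ℓ hℓ hℓd), hℓ⟩) t.num
  have e1 : |(t.den : ℝ) * α - t.num| = t.den * |α - t| := by
    have e2 : (t.num : ℝ) = (t : ℝ) * t.den := by
      rw [Rat.cast_def]
      field_simp
    rw [e2, show (t.den : ℝ) * α - (t : ℝ) * t.den = t.den * (α - t) by ring, abs_mul,
      abs_of_pos hd0]
  rw [e1] at h3
  have h4 : c * t.den ≤ (t.den : ℝ) ^ (1 + (τ - 1) / 2) * (t.den * (A * (t.den : ℝ) ^ (-τ))) :=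
    h3.trans (mul_le_mul_of_nonneg_left (mul_le_mul_of_nonneg_left h2 hd0.le) (by positivity))
  have h5 : (t.den : ℝ) ^ (1 + (τ - 1) / 2) * (t.den * (A * (t.den : ℝ) ^ (-τ))) =
      t.den * (A * (t.den : ℝ) ^ (-((τ - 1) / 2))) := by
    have e3 : (t.den : ℝ) ^ (-((τ - 1) / 2)) =
        (t.den : ℝ) ^ (1 + (τ - 1) / 2) * (t.den : ℝ) ^ (-τ) := by
      rw [← Real.rpow_add hd0]
      congr 1
      ring
    rw [e3]
    ring
  rw [h5, mul_comm c] at h4
  have h6 : c ≤ A * (t.den : ℝ) ^ (-((τ - 1) / 2)) := le_of_mul_le_mul_left h4 hd0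
  rw [Real.rpow_neg hd0.le, ← div_eq_mul_inv, le_div_iff₀ (by positivity)] at h6
  have h7 : (t.den : ℝ) ^ ((τ - 1) / 2) ≤ A / c := by
    rw [le_div_iff₀ hc]
    linarith
  refine ⟨?_, ?_⟩
  · have h8 : ((t.den : ℝ) ^ ((τ - 1) / 2)) ^ ((τ - 1) / 2)⁻¹ ≤ (A / c) ^ ((τ - 1) / 2)⁻¹ :=
      Real.rpow_le_rpow (by positivity) h7 (by
        rw [inv_nonneg]
        linarith)
    rwa [← Real.rpow_mul hd0.le, mul_inv_cancel₀ (by linarith), Real.rpow_one] at h8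
  · have h8 : (t.den : ℝ) ^ (-τ) ≤ 1 :=
      Real.rpow_le_one_of_one_le_of_nonpos hdr (by linarith)
    have h9 : |α - t| ≤ A := h2.trans (by nlinarith)
    have h10 : |(t : ℝ)| ≤ |α| + |α - t| := by
      have h11 : (t : ℝ) = α - (α - t) := by ring
      calc |(t : ℝ)| = |α - (α - t)| := by rw [← h11]
        _ ≤ |α| + |α - t| := abs_sub _ _
    linarith

/-- rational numbers -/
theorem rational_fin (a : ℚ) {τ A : ℝ} (hτ : 1 < τ) (hA : 0 < A) :
    {t : ℚ | |(a : ℝ) - t| ≤ A * (t.den : ℝ) ^ (-τ)}.Finite := by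
  refine ((finite_box ((A * a.den) ^ (τ - 1)⁻¹) (|(a : ℝ)| + A)).union
    (Set.finite_singleton a)).subset ?_
  intro t h2
  by_cases hta : t = a
  · exact Or.inr hta
  left
  have hd : 1 ≤ t.den := t.den_pos
  have hdr : (1 : ℝ) ≤ t.den := by exact_mod_cast hd
  have hd0 : (0 : ℝ) < t.den := by linarith
  have ha0 : (0 : ℝ) < a.den := by exact_mod_cast a.den_pos
  have h1 : 1 ≤ (a.den : ℝ) * t.den * |(a : ℝ) - t| := by
    have e1 : (a.den : ℝ) * t.den * ((a : ℝ) - t) = ((a.num * t.den - t.num * a.den : ℤ) : ℝ) := by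
      have e2 : (t.num : ℝ) = (t : ℝ) * t.den := by
        rw [Rat.cast_def t]
        field_simp
      have e3 : (a.num : ℝ) = (a : ℝ) * a.den := by
        rw [Rat.cast_def a]
        field_simp
      push_cast
      rw [e2, e3]
      ring
    have e2 : (a.den : ℝ) * t.den * |(a : ℝ) - t| = |(a.den : ℝ) * t.den * ((a : ℝ) - t)| := by
      rw [abs_mul, abs_of_pos (mul_pos ha0 hd0)]
    rw [e2, e1]
    have h3 : a.num * t.den - t.num * a.den ≠ 0 := by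
      intro h4
      apply hta
      have h5 : (a.num : ℚ) * t.den = t.num * a.den := by exact_mod_cast sub_eq_zero.1 h4
      have h6 : (t.den : ℚ) ≠ 0 := by exact_mod_cast t.den_nz
      have h7 : (a.den : ℚ) ≠ 0 := by exact_mod_cast a.den_nz
      calc t = t.num / t.den := (Rat.num_div_den t).symm
        _ = a.num / a.den := by
          rw [div_eq_div_iff h6 h7]
          exact h5.symm
        _ = a := Rat.num_div_den a
    rw [← Int.cast_abs]
    exact_mod_cast Int.one_le_abs h3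
  have h4 : 1 ≤ (a.den : ℝ) * t.den * (A * (t.den : ℝ) ^ (-τ)) :=
    h1.trans (mul_le_mul_of_nonneg_left h2 (by positivity))
  have h5 : (a.den : ℝ) * t.den * (A * (t.den : ℝ) ^ (-τ)) =
      A * a.den * (t.den : ℝ) ^ (-(τ - 1)) := by
    have e3 : (t.den : ℝ) ^ (-(τ - 1)) = (t.den : ℝ) * (t.den : ℝ) ^ (-τ) := by
      rw [show -(τ - 1) = 1 + -τ by ring, Real.rpow_add hd0, Real.rpow_one]
    rw [e3]
    ring
  rw [h5, Real.rpow_neg hd0.le, ← div_eq_mul_inv, le_div_iff₀ (by positivity), one_mul] at h4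
  refine ⟨?_, ?_⟩
  · have h8 : ((t.den : ℝ) ^ (τ - 1)) ^ (τ - 1)⁻¹ ≤ (A * a.den) ^ (τ - 1)⁻¹ :=
      Real.rpow_le_rpow (by positivity) h4 (by
        rw [inv_nonneg]
        linarith)
    rwa [← Real.rpow_mul hd0.le, mul_inv_cancel₀ (by linarith), Real.rpow_one] at h8
  · have h8 : (t.den : ℝ) ^ (-τ) ≤ 1 :=
      Real.rpow_le_one_of_one_le_of_nonpos hdr (by linarith)
    have h2' : |(a : ℝ) - t| ≤ A * (t.den : ℝ) ^ (-τ) := h2
    have h9 : |(a : ℝ) - t| ≤ A := h2'.trans (by nlinarith)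
    have h10 : |(t : ℝ)| ≤ |(a : ℝ)| + |(a : ℝ) - t| := by
      have h11 : (t : ℝ) = a - (a - t) := by ring
      calc |(t : ℝ)| = |(a : ℝ) - (a - t)| := by rw [← h11]
        _ ≤ |(a : ℝ)| + |(a : ℝ) - t| := abs_sub _ _
    linarith

/-- the sum over the smooth numbers -/
lemma summable_smooth (s : Finset ℕ) {σ : ℝ} (hσ : 0 < σ) :
    Summable (fun m : Nat.factoredNumbers s => ((m : ℕ) : ℝ) ^ (-σ)) := by
  set f : ℕ →* ℝ := 
    { toFun := fun m => (m : ℝ) ^ (-σ)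
      map_one' := by simp
      map_mul' := fun a b => by
        rw [Nat.cast_mul, Real.mul_rpow (Nat.cast_nonneg _) (Nat.cast_nonneg _)] } with hf
  have h1 := (EulerProduct.summable_and_hasSum_factoredNumbers_prod_filter_prime_geometric (f := f)
    (fun {p} hp => by
      show ‖(p : ℝ) ^ (-σ)‖ < 1
      rw [Real.norm_of_nonneg (by positivity)]
      exact Real.rpow_lt_one_of_one_lt_of_neg (by exact_mod_cast hp.one_lt) (by linarith)) s).1
  refine h1.congr fun m => ?_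
  show ‖((m : ℕ) : ℝ) ^ (-σ)‖ = _
  rw [Real.norm_of_nonneg (by positivity)]

/-- the pairs of a smooth denominator `b` and a numerator in `[-N b, N b]` -/
def Pairs (s : Finset ℕ) (N : ℕ) : Type :=
  Σ b : Nat.factoredNumbers s, {a : ℤ // a ∈ Finset.Icc (-((N * (b : ℕ) : ℕ) : ℤ))
    ((N * (b : ℕ) : ℕ) : ℤ)}

lemma summable_pairs (s : Finset ℕ) (N : ℕ) {σ : ℝ} (hσ : 1 < σ) :
    Summable (fun q : Pairs s N => (((q.1 : ℕ) : ℝ)) ^ (-σ)) := by
  have h0 : ∀ q : (Σ b : Nat.factoredNumbers s, {a : ℤ // a ∈ Finset.Icc (-((N * (b : ℕ) : ℕ) : ℤ))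
    ((N * (b : ℕ) : ℕ) : ℤ)}), 0 ≤ (((q.1 : ℕ) : ℝ)) ^ (-σ) := fun q => by positivity
  refine (summable_sigma_of_nonneg h0).2 ⟨fun b => (hasSum_fintype _).summable, ?_⟩
  have h1 := (summable_smooth s (σ := σ - 1) (by linarith)).mul_left (2 * N + 1 : ℝ)
  refine Summable.of_nonneg_of_le (fun b => tsum_nonneg fun a => h0 ⟨b, a⟩) (fun b => ?_) h1
  have e0 : ∑' a : {a : ℤ // a ∈ Finset.Icc (-((N * (b : ℕ) : ℕ) : ℤ))
      ((N * (b : ℕ) : ℕ) : ℤ)}, ((b : ℕ) : ℝ) ^ (-σ) =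
      ((2 * (N * (b : ℕ)) + 1 : ℕ) : ℝ) * ((b : ℕ) : ℝ) ^ (-σ) := by
    rw [tsum_fintype, Finset.sum_const, nsmul_eq_mul, Finset.card_univ, Fintype.card_coe,
      Int.card_Icc]
    have h2 : (((N * (b : ℕ) : ℕ) : ℤ) + 1 - -((N * (b : ℕ) : ℕ) : ℤ)).toNat =
        2 * (N * (b : ℕ)) + 1 := by omega
    rw [h2]
  refine (le_of_eq e0).trans ?_
  have hb : 1 ≤ (b : ℕ) := Nat.pos_of_ne_zero b.2.1
  have hbr : (1 : ℝ) ≤ ((b : ℕ) : ℝ) := by exact_mod_cast hb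
  have hb0 : (0 : ℝ) < ((b : ℕ) : ℝ) := by linarith
  have e1 : ((b : ℕ) : ℝ) ^ (-(σ - 1)) = ((b : ℕ) : ℝ) * ((b : ℕ) : ℝ) ^ (-σ) := by
    rw [show -(σ - 1) = 1 + -σ by ring, Real.rpow_add hb0, Real.rpow_one]
  rw [e1]
  have h3 : ((2 * (N * (b : ℕ)) + 1 : ℕ) : ℝ) ≤ (2 * N + 1 : ℝ) * ((b : ℕ) : ℝ) := by
    push_cast
    nlinarith [Nat.cast_nonneg (α := ℝ) N]
  calc ((2 * (N * (b : ℕ)) + 1 : ℕ) : ℝ) * ((b : ℕ) : ℝ) ^ (-σ)
      ≤ (2 * N + 1 : ℝ) * ((b : ℕ) : ℝ) * ((b : ℕ) : ℝ) ^ (-σ) :=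
        mul_le_mul_of_nonneg_right h3 (Real.rpow_nonneg hb0.le _)
    _ = (2 * N + 1 : ℝ) * (((b : ℕ) : ℝ) * ((b : ℕ) : ℝ) ^ (-σ)) := by ring

lemma summable_frac' (D N : ℕ) {σ : ℝ} (hσ : 1 < σ) (s : Finset ℕ)
    (hs : ∀ p : ℕ, p.Prime → p ≤ D → p ∈ s) :
    Summable (fun t : {t : ℚ // t ∈ Smooth D ∧ |(t : ℝ)| ≤ N} => (t.1.den : ℝ) ^ (-σ)) := by
  have hden : ∀ t : {t : ℚ // t ∈ Smooth D ∧ |(t : ℝ)| ≤ N}, t.1.den ∈
      Nat.factoredNumbers s := by
    intro t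
    rw [Nat.mem_factoredNumbers']
    intro p hp hpd
    exact hs p hp (t.2.1 p hp hpd)
  have hnum : ∀ t : {t : ℚ // t ∈ Smooth D ∧ |(t : ℝ)| ≤ N}, t.1.num ∈
      Finset.Icc (-((N * t.1.den : ℕ) : ℤ)) ((N * t.1.den : ℕ) : ℤ) := by
    intro t
    have hd0 : (0 : ℝ) < t.1.den := by exact_mod_cast t.1.den_pos
    have e2 : (t.1.num : ℝ) = (t.1 : ℝ) * t.1.den := by
      rw [Rat.cast_def t.1]
      field_simp
    have h1 : |(t.1.num : ℝ)| ≤ ((N * t.1.den : ℕ) : ℝ) := by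
      rw [e2, abs_mul, abs_of_pos hd0]
      push_cast
      exact mul_le_mul_of_nonneg_right t.2.2 hd0.le
    rw [Finset.mem_Icc, ← abs_le]
    exact_mod_cast h1
  obtain ⟨F, hF1, hF2⟩ : ∃ F : {t : ℚ // t ∈ Smooth D ∧ |(t : ℝ)| ≤ N} → Pairs s N,
      (∀ t, ((F t).1 : ℕ) = t.1.den) ∧ ∀ t, ((F t).2 : ℤ) = t.1.num :=
    ⟨fun t => ⟨⟨t.1.den, hden t⟩, ⟨t.1.num, hnum t⟩⟩, fun t => rfl, fun t => rfl⟩
  have hinj : Function.Injective F := by
    intro t u h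
    have h1 : t.1.den = u.1.den := by rw [← hF1, ← hF1, h]
    have h2 : t.1.num = u.1.num := by rw [← hF2, ← hF2, h]
    exact Subtype.ext (Rat.ext h2 h1)
  refine ((summable_pairs s N hσ).comp_injective hinj).congr fun t => ?_
  rw [Function.comp_apply, hF1]

/-- the sum over the fractions with smooth denominators in an interval -/
lemma summable_frac (D N : ℕ) {σ : ℝ} (hσ : 1 < σ) :
    Summable (fun t : {t : ℚ // t ∈ Smooth D ∧ |(t : ℝ)| ≤ N} => (t.1.den : ℝ) ^ (-σ)) :=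
  summable_frac' D N hσ (Finset.range (D + 1)) fun _ _ h => Finset.mem_range.2 (Nat.lt_succ_of_le h)

/-- the dimension of the set of the real numbers with infinitely many good approximations with
smooth denominators -/
theorem dim_le {τ A : ℝ} (hτ : 0 < τ) (hA : 0 < A) :
    dimH {z : ℝ | ∃ D : ℕ, {t : ℚ | t ∈ Smooth D ∧ |z - t| ≤ A * (t.den : ℝ) ^ (-τ)}.Infinite} ≤
      ENNReal.ofReal (1 / τ) := by
  apply ENNReal.le_of_forall_pos_le_add
  intro ε hε _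
  have hε' : (0 : ℝ) < ε := by exact_mod_cast hε
  rw [← ENNReal.ofReal_coe_nnreal (p := ε), ← ENNReal.ofReal_add (by positivity) hε'.le]
  set q : ℝ := 1 / τ + ε with hq
  have hq0 : 0 < q := by positivity
  have hlt : 1 < τ * q := by
    have : τ * (1 / τ) = 1 := by field_simp
    rw [hq, mul_add, this]
    linarith [mul_pos hτ hε']
  have hsub : {z : ℝ | ∃ D : ℕ, {t : ℚ | t ∈ Smooth D ∧
      |z - t| ≤ A * (t.den : ℝ) ^ (-τ)}.Infinite} ⊆
      ⋃ D : ℕ, ⋃ N : ℕ, {z : ℝ | {i : {t : ℚ // t ∈ Smooth D ∧ |(t : ℝ)| ≤ N} |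
        dist (i.1 : ℝ) z ≤ A * (i.1.den : ℝ) ^ (-τ)}.Infinite} := by
    rintro z ⟨D, hD⟩
    rw [Set.mem_iUnion]
    refine ⟨D, ?_⟩
    rw [Set.mem_iUnion]
    obtain ⟨N, hN⟩ := exists_nat_ge (|z| + A)
    refine ⟨N, ?_⟩
    rw [Set.mem_ofPred_eq]
    by_contra hfin
    rw [Set.not_infinite] at hfin
    refine hD ((hfin.image fun i => i.1).subset ?_)
    rintro t ⟨h1, h2⟩
    have hd : 1 ≤ t.den := t.den_pos
    have hdr : (1 : ℝ) ≤ t.den := by exact_mod_cast hd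
    have h8 : (t.den : ℝ) ^ (-τ) ≤ 1 :=
      Real.rpow_le_one_of_one_le_of_nonpos hdr (by linarith)
    have h9 : |z - t| ≤ A := h2.trans (by nlinarith)
    have h10 : |(t : ℝ)| ≤ |z| + |z - t| := by
      have h11 : (t : ℝ) = z - (z - t) := by ring
      calc |(t : ℝ)| = |z - (z - t)| := by rw [← h11]
        _ ≤ |z| + |z - t| := abs_sub _ _
    refine ⟨⟨t, h1, by linarith⟩, ?_, rfl⟩
    rw [Set.mem_ofPred_eq, Real.dist_eq, abs_sub_comm]
    exact h2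
  refine (dimH_mono hsub).trans ?_
  rw [dimH_iUnion]
  refine iSup_le fun D => ?_
  rw [dimH_iUnion]
  refine iSup_le fun N => ?_
  have hs := (summable_frac D N hlt).mul_left (A ^ q)
  refine Pool.Agent.Helper93.ZP.dimH_of_summable
    (fun i : {t : ℚ // t ∈ Smooth D ∧ |(t : ℝ)| ≤ N} => (i.1 : ℝ))
    (fun i => A * (i.1.den : ℝ) ^ (-τ)) (fun i => by
      have h2 : (0 : ℝ) < i.1.den := by exact_mod_cast i.1.den_pos
      positivity) hq0 (hs.congr fun i => ?_)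
  have h2 : (0 : ℝ) < i.1.den := by exact_mod_cast i.1.den_pos
  rw [Real.mul_rpow hA.le (by positivity), ← Real.rpow_mul h2.le, neg_mul]

/-- the number of fractions with smooth denominators -/
theorem count_smooth (D : ℕ) {ε : ℝ} (hε : 0 < ε) : ∃ C : ℝ, ∀ H : ℕ, 1 ≤ H →
    {t : ℚ | |t.num| ≤ H ∧ t.den ≤ H ∧ t ∈ Smooth D}.Finite ∧
    ({t : ℚ | |t.num| ≤ H ∧ t.den ≤ H ∧ t ∈ Smooth D}.ncard : ℝ) ≤ C * (H : ℝ) ^ (1 + ε) := by
  classical
  obtain ⟨s, hs⟩ : ∃ s : Finset ℕ, ∀ p : ℕ, p.Prime → p ≤ D → p ∈ s :=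
    ⟨Finset.range (D + 1), fun _ _ h => Finset.mem_range.2 (Nat.lt_succ_of_le h)⟩
  have hsum := summable_smooth s hε
  set S : ℝ := ∑' m : Nat.factoredNumbers s, ((m : ℕ) : ℝ) ^ (-ε) with hS
  refine ⟨3 * S, fun H hH => ?_⟩
  have hH1 : (1 : ℝ) ≤ H := by exact_mod_cast hH
  have hH0 : (0 : ℝ) < H := by linarith
  set B : Finset ℕ := (Finset.Icc 1 H).filter (fun b => b ∈ Nat.factoredNumbers s) with hB
  have hBcard : (B.card : ℝ) ≤ S * (H : ℝ) ^ ε := by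
    set B' : Finset (Nat.factoredNumbers s) := B.attach.image
      (fun b => (⟨b.1, (Finset.mem_filter.1 b.2).2⟩ : Nat.factoredNumbers s)) with hB'
    have hcard : B'.card = B.card := by
      rw [hB', Finset.card_image_of_injective, Finset.card_attach]
      intro a b h
      have h' : (a : ℕ) = (b : ℕ) := congrArg (fun m : Nat.factoredNumbers s => (m : ℕ)) h
      exact Subtype.ext h'
    have h1 : ∑ m ∈ B', ((m : ℕ) : ℝ) ^ (-ε) ≤ S :=
      hsum.sum_le_tsum B' fun m _ => by positivity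
    have h2 : (B'.card : ℝ) * (H : ℝ) ^ (-ε) ≤ ∑ m ∈ B', ((m : ℕ) : ℝ) ^ (-ε) := by
      rw [← nsmul_eq_mul]
      refine Finset.card_nsmul_le_sum _ _ _ fun m hm => ?_
      rw [hB', Finset.mem_image] at hm
      obtain ⟨b, -, rfl⟩ := hm
      have hb := Finset.mem_Icc.1 (Finset.mem_filter.1 b.2).1
      have hb0 : (0 : ℝ) < (b.1 : ℝ) := by exact_mod_cast hb.1
      exact Real.rpow_le_rpow_of_nonpos hb0 (by exact_mod_cast hb.2) (by linarith)
    rw [hcard] at h2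
    have h3 := h2.trans h1
    rw [Real.rpow_neg hH0.le, ← div_eq_mul_inv, div_le_iff₀ (by positivity)] at h3
    exact h3
  set g : ℚ → ℤ × ℕ := fun t => (t.num, t.den) with hg
  have hinj : Function.Injective g := by
    intro s t h
    rw [hg, Prod.mk.injEq] at h
    exact Rat.ext h.1 h.2
  have himg : g '' {t : ℚ | |t.num| ≤ H ∧ t.den ≤ H ∧ t ∈ Smooth D} ⊆
      (((Finset.Icc (-(H : ℤ)) H) ×ˢ B : Finset (ℤ × ℕ)) : Set (ℤ × ℕ)) := by
    rintro _ ⟨t, ⟨h1, h2, h3⟩, rfl⟩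
    rw [Finset.mem_coe, Finset.mem_product, Finset.mem_Icc, hB, Finset.mem_filter, Finset.mem_Icc]
    refine ⟨abs_le.1 h1, ⟨t.den_pos, h2⟩, ?_⟩
    rw [Nat.mem_factoredNumbers']
    intro p hp hpd
    exact hs p hp (h3 p hp hpd)
  have hfin : {t : ℚ | |t.num| ≤ H ∧ t.den ≤ H ∧ t ∈ Smooth D}.Finite :=
    Set.Finite.of_finite_image ((Finset.finite_toSet _).subset himg) hinj.injOn
  refine ⟨hfin, ?_⟩
  have h1 : {t : ℚ | |t.num| ≤ H ∧ t.den ≤ H ∧ t ∈ Smooth D}.ncard ≤ (2 * H + 1) * B.card := by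
    rw [← Set.ncard_image_of_injective _ hinj]
    refine (Set.ncard_le_ncard himg (Finset.finite_toSet _)).trans ?_
    rw [Set.ncard_coe_finset, Finset.card_product, Int.card_Icc]
    refine Nat.mul_le_mul_right _ ?_
    omega
  have h2 : ({t : ℚ | |t.num| ≤ H ∧ t.den ≤ H ∧ t ∈ Smooth D}.ncard : ℝ) ≤
      (2 * H + 1) * B.card := by exact_mod_cast h1
  refine h2.trans ?_
  have hS0 : 0 ≤ S := tsum_nonneg fun m => by positivity
  calc (2 * (H : ℝ) + 1) * B.card ≤ (3 * H) * (S * (H : ℝ) ^ ε) :=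
        mul_le_mul (by linarith) hBcard (by positivity) (by positivity)
    _ = 3 * S * (H : ℝ) ^ (1 + ε) := by
        rw [Real.rpow_add hH0, Real.rpow_one]
        ring

end Pool.Agent.Helper93.RA
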