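import Mathlib

/-!
# Values of rational polynomials at rational numbers with a large prime in the denominator
-/

set_option autoImplicit false

namespace Pool.Agent.Helper93.RA

open Polynomial

variable {p : ℕ} [hpf : Fact p.Prime]

omit hpf in
lemma norm_unit {q : ℚ} (hq : q ≠ 0) (h1 : q.num.natAbs < p) (h2 : q.den < p) :
    padicNorm p q = 1 := by
  have hnum : ¬ (p : ℤ) ∣ q.num := by
    intro h
    have h3 : p ∣ q.num.natAbs := Int.natCast_dvd.1 h
    have h4 := Nat.le_of_dvd (Int.natAbs_pos.2 (Rat.num_ne_zero.2 hq)) h3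
    omega
  have hden : ¬ p ∣ q.den := by
    intro h
    have h4 := Nat.le_of_dvd q.den_pos h
    omega
  have h3 : padicValRat p q = 0 := by
    unfold padicValRat
    rw [padicValInt.eq_zero_of_not_dvd hnum, padicValNat.eq_zero_of_not_dvd hden]
    simp
  rw [padicNorm.eq_zpow_of_nonzero hq, h3, neg_zero, zpow_zero]

/-- all nonzero coefficients are units -/
def UC (p : ℕ) (f : ℚ[X]) : Prop := ∀ k, f.coeff k ≠ 0 → padicNorm p (f.coeff k) = 1

omit hpf in
lemma UC.le {f : ℚ[X]} (hf : UC p f) (k : ℕ) : padicNorm p (f.coeff k) ≤ 1 := by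
  by_cases h : f.coeff k = 0
  · rw [h, padicNorm.zero]
    exact zero_le_one
  · exact (hf k h).le

lemma norm_pow' (x : ℚ) (k : ℕ) : padicNorm p (x ^ k) = padicNorm p x ^ k := by
  induction k with
  | zero => simp
  | succ k ih => rw [pow_succ, padicNorm.mul, ih, pow_succ]

lemma eval_lt {f : ℚ[X]} (hf : UC p f) {x : ℚ} (hx : 1 < padicNorm p x) {w : ℕ}
    (hw : f.degree < (w : WithBot ℕ)) :
    padicNorm p (f.eval x) * padicNorm p x ≤ padicNorm p x ^ w := by
  have hx0 : 0 < padicNorm p x := one_pos.trans hx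
  by_cases hf0 : f = 0
  · rw [hf0, eval_zero, padicNorm.zero, zero_mul]
    positivity
  have hd : f.natDegree < w := (natDegree_lt_iff_degree_lt hf0).2 hw
  obtain ⟨w', rfl⟩ : ∃ w', w = w' + 1 := ⟨w - 1, by omega⟩
  rw [pow_succ]
  refine mul_le_mul_of_nonneg_right ?_ hx0.le
  rw [eval_eq_sum_range]
  refine padicNorm.sum_le' (fun k hk => ?_) (by positivity)
  rw [padicNorm.mul, norm_pow']
  calc padicNorm p (f.coeff k) * padicNorm p x ^ k ≤ 1 * padicNorm p x ^ w' :=
        mul_le_mul (hf.le k) (pow_le_pow_right₀ hx.le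
          (by have := Finset.mem_range.1 hk; omega)) (by positivity) zero_le_one
    _ = padicNorm p x ^ w' := one_mul _

lemma eval_eq {f : ℚ[X]} (hf : UC p f) (hf0 : f ≠ 0) {x : ℚ} (hx : 1 < padicNorm p x) :
    padicNorm p (f.eval x) = padicNorm p x ^ f.natDegree := by
  have hx0 : 0 < padicNorm p x := one_pos.trans hx
  have e : f.eval x = f.eraseLead.eval x + f.leadingCoeff * x ^ f.natDegree := by
    conv_lhs => rw [← f.eraseLead_add_C_mul_X_pow]
    rw [eval_add, eval_mul, eval_C, eval_pow, eval_X]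
  have h1 : padicNorm p (f.eraseLead.eval x) * padicNorm p x ≤ padicNorm p x ^ f.natDegree := by
    refine eval_lt (fun k hk => ?_) hx ?_
    · by_cases hkd : k = f.natDegree
      · rw [hkd, eraseLead_coeff_natDegree] at hk
        exact absurd rfl hk
      · rw [eraseLead_coeff_of_ne _ hkd] at hk ⊢
        exact hf k hk
    · rw [← degree_eq_natDegree hf0]
      exact degree_eraseLead_lt hf0
  have h2 : padicNorm p (f.leadingCoeff * x ^ f.natDegree) = padicNorm p x ^ f.natDegree := by
    have h0 : padicNorm p f.leadingCoeff = 1 := hf f.natDegree (leadingCoeff_ne_zero.2 hf0)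
    rw [padicNorm.mul, h0, one_mul, norm_pow']
  have h3 : padicNorm p (f.eraseLead.eval x) <
      padicNorm p (f.leadingCoeff * x ^ f.natDegree) := by
    rw [h2]
    have h4 : 0 < padicNorm p x ^ f.natDegree := pow_pos hx0 _
    by_contra h5
    push Not at h5
    nlinarith [mul_le_mul_of_nonneg_right h5 hx0.le]
  rw [e, padicNorm.add_eq_max_of_ne h3.ne, max_eq_right h3.le, h2]

/-- the valuation of `t` -/
lemma val_eq {t : ℚ} (hp : p ∣ t.den) : padicValRat p t = -(padicValNat p t.den : ℤ) := by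
  have h1 : ¬ (p : ℤ) ∣ t.num := by
    intro h
    have h2 : p ∣ t.num.natAbs := Int.natCast_dvd.1 h
    have h3 := Nat.dvd_gcd h2 hp
    rw [t.reduced] at h3
    exact hpf.out.one_lt.ne' (Nat.dvd_one.1 h3)
  unfold padicValRat
  rw [padicValInt.eq_zero_of_not_dvd h1]
  simp

lemma val_pos {t : ℚ} (hp : p ∣ t.den) : 0 < padicValNat p t.den :=
  one_le_padicValNat_of_dvd t.den_nz hp

lemma ne_zero_of {t : ℚ} (hp : p ∣ t.den) : t ≠ 0 := by
  rintro rfl
  rw [Rat.den_zero] at hp
  exact hpf.out.one_lt.ne' (Nat.dvd_one.1 hp)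

lemma norm_gt {t : ℚ} (hp : p ∣ t.den) : 1 < padicNorm p t := by
  rw [padicNorm.eq_zpow_of_nonzero (ne_zero_of hp), val_eq hp, neg_neg, zpow_natCast]
  exact one_lt_pow₀ (by exact_mod_cast hpf.out.one_lt) (val_pos hp).ne'

lemma norm_t {t : ℚ} (hp : p ∣ t.den) : padicNorm p t = (p : ℚ) ^ padicValNat p t.den := by
  rw [padicNorm.eq_zpow_of_nonzero (ne_zero_of hp), val_eq hp, neg_neg, zpow_natCast]

/-- the valuation of `lam (t)` -/
theorem val_lam {f : ℚ[X]} (hf : UC p f) (hf0 : f ≠ 0) {t : ℚ} (hp : p ∣ t.den) :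
    padicValRat p (f.eval t) = -((f.natDegree : ℤ) * padicValNat p t.den) := by
  have h1 := eval_eq hf hf0 (norm_gt hp)
  have hp1 : (1 : ℚ) < p := by exact_mod_cast hpf.out.one_lt
  have hne : f.eval t ≠ 0 := by
    intro h0
    rw [h0, padicNorm.zero] at h1
    exact (pow_pos (one_pos.trans (norm_gt hp)) _).ne h1
  rw [padicNorm.eq_zpow_of_nonzero hne, norm_t hp, ← pow_mul, ← zpow_natCast] at h1
  have h2 := zpow_right_injective₀ (one_pos.trans hp1) hp1.ne' h1
  rw [Nat.cast_mul] at h2
  linarith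

/-- the valuation of `mu (t)` -/
theorem val_mu {f g : ℚ[X]} (hg : UC p g) (hgf : g.degree < f.degree) (hfd : 0 < f.natDegree)
    {t : ℚ} (hp : p ∣ t.den) :
    -((f.natDegree : ℤ) * padicValNat p t.den) < padicValRat p (g.eval t) := by
  have he := val_pos hp
  have hp1 : (1 : ℚ) < p := by exact_mod_cast hpf.out.one_lt
  by_cases h0 : g.eval t = 0
  · rw [h0, padicValRat.zero]
    have : 0 < (f.natDegree : ℤ) * padicValNat p t.den := by positivity
    linarith
  · have hf0 : f ≠ 0 := by
      rintro rfl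
      rw [natDegree_zero] at hfd
      omega
    have h1 := eval_lt hg (norm_gt hp) (w := f.natDegree) (by
      rw [← degree_eq_natDegree hf0]
      exact hgf)
    rw [padicNorm.eq_zpow_of_nonzero h0, norm_t hp, ← pow_mul, ← zpow_natCast, ← zpow_natCast,
      ← zpow_add₀ (one_pos.trans hp1).ne'] at h1
    have h2 := (zpow_le_zpow_iff_right₀ hp1).1 h1
    rw [Nat.cast_mul] at h2
    have h3 : (0 : ℤ) < padicValNat p t.den := by exact_mod_cast he
    nlinarith

omit hpf in
/-- the coefficients are units at large primes -/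
theorem uc_of_large (f : ℚ[X]) : ∃ B : ℕ, ∀ p : ℕ, p.Prime → B < p → UC p f := by
  refine ⟨∑ k ∈ Finset.range (f.natDegree + 1), ((f.coeff k).num.natAbs + (f.coeff k).den), ?_⟩
  intro p hp hB k hk
  have : Fact p.Prime := ⟨hp⟩
  have hk' : k ∈ Finset.range (f.natDegree + 1) :=
    Finset.mem_range.2 (Nat.lt_succ_of_le (le_natDegree_of_ne_zero hk))
  have h4 : (f.coeff k).num.natAbs + (f.coeff k).den ≤
      ∑ k ∈ Finset.range (f.natDegree + 1), ((f.coeff k).num.natAbs + (f.coeff k).den) :=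
    Finset.single_le_sum (f := fun k => (f.coeff k).num.natAbs + (f.coeff k).den)
      (fun _ _ => Nat.zero_le _) hk'
  have h5 := (f.coeff k).den_pos
  exact norm_unit hk (by omega) (by omega)

end Pool.Agent.Helper93.RA
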